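import Pool.Agent.H.MP_898cae_lc.A
set_option linter.style.longLine false
namespace Pool.Agent.Results.MP_3e50fa_lc.No
open Cardinal Filter Topology Pool.Agent.H.MP_898cae_lc

/-- the Stone space of a Boolean algebra -/
def St (A : Type) [BooleanAlgebra A] : Type := BoundedLatticeHom A Bool

noncomputable instance (A : Type) [BooleanAlgebra A] : TopologicalSpace (St A) :=
  TopologicalSpace.induced (fun (f : BoundedLatticeHom A Bool) (a : A) => f a) inferInstance

/-- `C(St A)` is a Grothendieck space -/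
def Groth (A : Type) [BooleanAlgebra A] : Prop :=
  ∀ (μ : ℕ → StrongDual ℝ (BoundedContinuousFunction (St A) ℝ)) (ν : StrongDual ℝ (BoundedContinuousFunction (St A) ℝ)),
    (∀ f, Tendsto (fun n => μ n f) atTop (𝓝 (ν f))) →
      ∀ Φ : StrongDual ℝ (StrongDual ℝ (BoundedContinuousFunction (St A) ℝ)), Tendsto (fun n => Φ (μ n)) atTop (𝓝 (Φ ν))

/-- the Grothendieck number -/
noncomputable def gr : Cardinal.{0} :=
  sInf {c | ∃ (A : Type) (_ : BooleanAlgebra A), Infinite A ∧ Groth A ∧ #A = c}

theorem result : propT = 𝔠 ∧ (Groth (Set ℕ) → gr ≤ propT) :=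
  ⟨propT_eq, fun h => csInf_le' ⟨Set ℕ, inferInstance, inferInstance, h, by simp [propT_eq]⟩⟩

end Pool.Agent.Results.MP_3e50fa_lc.No
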